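import Mathlib

set_option autoImplicit false

open Set Cardinal

namespace Pool.Agent.Results.MP_8697f8_lc.KatetovNumbersDiffer

/-- An ideal on `ω`: a proper ideal of subsets of `ω` that contains every finite set. -/
def IsIdeal (J : Set (Set ℕ)) : Prop :=
  (∀ a : Set ℕ, a.Finite → a ∈ J) ∧ (∀ a ∈ J, ∀ b : Set ℕ, b ⊆ a → b ∈ J) ∧
    (∀ a ∈ J, ∀ b ∈ J, a ∪ b ∈ J) ∧ (Set.univ : Set ℕ) ∉ J

/-- `A ≤_K J` (Katetov order). -/
def KatetovLE (A J : Set (Set ℕ)) : Prop := ∃ f : ℕ → ℕ, ∀ a ∈ A, f ⁻¹' a ∈ J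

/-- `𝔭_K(I,J)`, the least size of a family `A ⊆ I` with `A ≰_K J`; `⊤` is `∞` (the value when
there is no such family). -/
noncomputable def pK (I J : Set (Set ℕ)) : WithTop Cardinal.{0} :=
  sInf {κ : WithTop Cardinal.{0} | ∃ A : Set (Set ℕ), A ⊆ I ∧ ¬ KatetovLE A J ∧
    κ = ((Cardinal.mk A : Cardinal.{0}) : WithTop Cardinal.{0})}

/-- `J₀ ⊕ J₁`, moved from `{0,1} × ω` to `ω` by the bijection `e`. -/
def osum (e : Bool × ℕ ≃ ℕ) (J₀ J₁ : Set (Set ℕ)) : Set (Set ℕ) :=
  {A | {n | e (false, n) ∈ A} ∈ J₀ ∧ {n | e (true, n) ∈ A} ∈ J₁}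

/-- The ideal `ED` on `ω × ω` (coded by the pairing function): from some column on, the columns of
the set have a bounded number of points. -/
def EDc : Set (Set ℕ) := {A | ∃ k : ℕ, ∀ c ≥ k, {r | Nat.pair c r ∈ A}.encard ≤ k}

/-- The transposed ideal: rows instead of columns. -/
def EDr : Set (Set ℕ) := {A | ∃ k : ℕ, ∀ r ≥ k, {c | Nat.pair c r ∈ A}.encard ≤ k}

theorem EDc_ideal : IsIdeal EDc := by
  refine ⟨?_, ?_, ?_, ?_⟩
  · intro a ha
    refine ⟨a.ncard, fun c _ => ?_⟩
    rw [ha.cast_ncard_eq]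
    refine Set.encard_le_encard_of_injOn (f := fun r => Nat.pair c r) (fun r hr => hr) ?_
    intro x _ y _ h
    exact (Nat.pair_eq_pair.1 h).2
  · rintro a ⟨k, hk⟩ b hb
    refine ⟨k, fun c hc => le_trans (Set.encard_le_encard ?_) (hk c hc)⟩
    intro r hr
    exact hb hr
  · rintro a ⟨k, hk⟩ b ⟨l, hl⟩
    refine ⟨k + l, fun c hc => ?_⟩
    have h1 := hk c (by omega)
    have h2 := hl c (by omega)
    have : {r | Nat.pair c r ∈ a ∪ b} = {r | Nat.pair c r ∈ a} ∪ {r | Nat.pair c r ∈ b} := rfl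
    rw [this]
    refine (Set.encard_union_le _ _).trans ?_
    push_cast
    exact add_le_add h1 h2
  · rintro ⟨k, hk⟩
    have := hk k le_rfl
    have h2 : {r | Nat.pair k r ∈ (Set.univ : Set ℕ)} = Set.univ := by ext; simp
    rw [h2, Set.encard_univ] at this
    simp at this

/-- The transposition of `ω × ω`, coded. -/
def sw (n : ℕ) : ℕ := Nat.pair (Nat.unpair n).2 (Nat.unpair n).1

theorem sw_pair (a b : ℕ) : sw (Nat.pair a b) = Nat.pair b a := by
  simp [sw]

theorem sw_sw (n : ℕ) : sw (sw n) = n := by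
  simp [sw]

theorem mem_EDr_iff (A : Set ℕ) : A ∈ EDr ↔ sw ⁻¹' A ∈ EDc := by
  unfold EDr EDc
  simp only [Set.mem_setOf_eq, Set.mem_preimage, sw_pair]

theorem mem_EDc_iff (A : Set ℕ) : A ∈ EDc ↔ sw ⁻¹' A ∈ EDr := by
  unfold EDr EDc
  simp only [Set.mem_setOf_eq, Set.mem_preimage, sw_pair]

theorem EDr_ideal : IsIdeal EDr := by
  obtain ⟨h1, h2, h3, h4⟩ := EDc_ideal
  have hinj : Function.Injective sw := Function.LeftInverse.injective sw_sw
  refine ⟨?_, ?_, ?_, ?_⟩
  · intro a ha
    rw [mem_EDr_iff]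
    exact h1 _ (ha.preimage hinj.injOn)
  · intro a ha b hb
    rw [mem_EDr_iff] at ha ⊢
    exact h2 _ ha _ (Set.preimage_mono hb)
  · intro a ha b hb
    rw [mem_EDr_iff] at ha hb ⊢
    rw [Set.preimage_union]
    exact h3 _ ha _ hb
  · rw [mem_EDr_iff, Set.preimage_univ]
    exact h4

/-- If the columns take unboundedly many values then there is a selector that is large. -/
theorem selector (G : ℕ → ℕ → ℕ) (h : ∀ k : ℕ, ∃ c ≥ k, (k : ℕ∞) < (Set.range (G c)).encard) :
    ∃ S : Set (ℕ × ℕ), (∀ p ∈ S, ∀ q ∈ S, G p.1 p.2 = G q.1 q.2 → p = q) ∧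
      ∀ k : ℕ, ∃ c ≥ k, (k : ℕ∞) < {r | (c, r) ∈ S}.encard := by
  classical
  have step : ∀ m : ℕ, ∃ (c : ℕ) (T : Finset ℕ) (n : ℕ), m ≤ c ∧ (T : Set ℕ) ⊆ Set.range (G c) ∧
      m < T.card ∧ (∀ t ∈ T, m ≤ t ∧ t < n) ∧ m < n := by
    intro m
    obtain ⟨c, hc, hlt⟩ := h (m + m)
    have h1 : ((m + 1 : ℕ) : ℕ∞) ≤ (Set.range (G c) \ (Finset.range m : Set ℕ)).encard := by
      by_contra hcon
      have hcon : (Set.range (G c) \ (Finset.range m : Set ℕ)).encard ≤ (m : ℕ∞) := by
        have := not_le.1 hcon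
        exact Order.le_of_lt_add_one (by simpa using this)
      have h2 : (Set.range (G c)).encard ≤
          (Set.range (G c) \ (Finset.range m : Set ℕ)).encard + ((Finset.range m : Finset ℕ) : Set ℕ).encard := by
        refine le_trans (Set.encard_le_encard ?_) (Set.encard_union_le _ _)
        intro x hx
        by_cases hxm : x ∈ (Finset.range m : Set ℕ)
        · exact Or.inr hxm
        · exact Or.inl ⟨hx, hxm⟩
      have h3 : (((Finset.range m : Finset ℕ) : Set ℕ)).encard = (m : ℕ∞) := by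
        rw [Set.encard_coe_eq_coe_finsetCard, Finset.card_range]
      rw [h3] at h2
      have h4 : (Set.range (G c)).encard ≤ (m : ℕ∞) + m := h2.trans (add_le_add hcon le_rfl)
      have : ((m + m : ℕ) : ℕ∞) = (m : ℕ∞) + m := by push_cast; rfl
      rw [this] at hlt
      exact absurd hlt (not_lt.2 h4)
    obtain ⟨T, hTs, hTc⟩ := Set.exists_subset_encard_eq h1
    have hfin : T.Finite := by
      rw [← Set.encard_ne_top_iff, hTc]
      exact ENat.coe_ne_top _
    refine ⟨c, hfin.toFinset, max (m + 1) (hfin.toFinset.sup id + 1), by omega, ?_, ?_, ?_, ?_⟩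
    · intro x hx
      exact (hTs (by simpa using hx)).1
    · have : (hfin.toFinset.card : ℕ∞) = ((m + 1 : ℕ) : ℕ∞) := by
        rw [← hTc, ← Set.encard_coe_eq_coe_finsetCard]
        simp
      have := ENat.coe_inj.1 this
      omega
    · intro t ht
      have ht' : t ∈ T := by simpa using ht
      have h5 := (hTs ht').2
      have h6 : ¬ t < m := by simpa using h5
      have h7 : t ≤ hfin.toFinset.sup id := Finset.le_sup (f := id) ht
      omega
    · omega
  choose c T nx hc hT hcard hmem hnx using step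
  let M : ℕ → ℕ := fun j => Nat.rec 0 (fun _ m => nx m) j
  have hMs : ∀ j, M (j + 1) = nx (M j) := fun j => rfl
  have hmono : StrictMono M := strictMono_nat_of_lt_succ fun j => by rw [hMs]; exact hnx _
  have hMj : ∀ j, j ≤ M j := hmono.id_le
  have hrho : ∀ m t, t ∈ T m → ∃ r, G (c m) r = t := fun m t ht => hT m (by simpa using ht)
  choose! ρ hρ using hrho
  refine ⟨{p | ∃ j, ∃ t ∈ T (M j), p = (c (M j), ρ (M j) t)}, ?_, ?_⟩
  · rintro p ⟨j, t, ht, rfl⟩ q ⟨j', t', ht', rfl⟩ heq
    simp only [hρ _ _ ht, hρ _ _ ht'] at heq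
    subst heq
    have h1 := hmem _ _ ht
    have h2 := hmem _ _ ht'
    rw [← hMs] at h1 h2
    have h3 : j = j' := by
      rcases lt_trichotomy j j' with h | h | h
      · have := hmono.monotone (Nat.succ_le_of_lt h)
        simp only [Nat.succ_eq_add_one] at this
        omega
      · exact h
      · have := hmono.monotone (Nat.succ_le_of_lt h)
        simp only [Nat.succ_eq_add_one] at this
        omega
    subst h3
    rfl
  · intro k
    refine ⟨c (M k), (hMj k).trans (hc _), ?_⟩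
    have h1 : (k : ℕ∞) < ((T (M k)).card : ℕ∞) := by
      exact_mod_cast lt_of_le_of_lt (hMj k) (hcard (M k))
    refine lt_of_lt_of_le h1 ?_
    rw [← Set.encard_coe_eq_coe_finsetCard]
    refine Set.encard_le_encard_of_injOn (f := fun t => ρ (M k) t) ?_ ?_
    · intro t ht
      exact ⟨k, t, by simpa using ht, rfl⟩
    · intro t ht t' ht' heq
      have h1 := hρ (M k) t (by simpa using ht)
      have h2 := hρ (M k) t' (by simpa using ht')
      simp only at heq
      rw [← h1, ← h2, heq]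

/-- The combinatorial core: `ED` is not Katetov below the intersection of `ED` with its transpose. -/
theorem not_katetov : ¬ KatetovLE EDc (EDc ∩ EDr) := by
  classical
  rintro ⟨f, hf⟩
  let G : ℕ → ℕ → ℕ := fun c r => (Nat.unpair (f (Nat.pair c r))).1
  -- fibres
  have hfib : ∀ n : ℕ, ∃ k : ℕ, ∀ c ≥ k, {r | G c r = n}.encard ≤ k := by
    intro n
    have h1 : {m : ℕ | (Nat.unpair m).1 = n} ∈ EDc := by
      refine ⟨n + 1, fun c hc => ?_⟩
      have : {r | Nat.pair c r ∈ {m : ℕ | (Nat.unpair m).1 = n}} = ∅ := by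
        ext r
        simp only [Set.mem_setOf_eq, Nat.unpair_pair, Set.mem_empty_iff_false, iff_false]
        omega
      rw [this]
      simp
    obtain ⟨k, hk⟩ := (hf _ h1).1
    exact ⟨k, fun c hc => hk c hc⟩
  -- selectors
  have hsel : ∀ S : Set ℕ, (∀ p ∈ S, ∀ q ∈ S, (Nat.unpair (f p)).1 = (Nat.unpair (f q)).1 → p = q) →
      S ∈ EDc ∩ EDr := by
    intro S hS
    have h1 : f '' S ∈ EDc := by
      refine ⟨1, fun c _ => ?_⟩
      have : {r | Nat.pair c r ∈ f '' S}.encard ≤ 1 := by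
        rw [Set.encard_le_one_iff]
        rintro a b ⟨p, hp, hpa⟩ ⟨q, hq, hqb⟩
        have h2 : p = q := hS p hp q hq (by rw [hpa, hqb]; simp)
        subst h2
        rw [hpa] at hqb
        exact (Nat.pair_eq_pair.1 hqb).2
      simpa using this
    have h2 := hf _ h1
    exact ⟨EDc_ideal.2.1 _ h2.1 _ (Set.subset_preimage_image f S),
      EDr_ideal.2.1 _ h2.2 _ (Set.subset_preimage_image f S)⟩
  -- columns take boundedly many values
  have hA : ∃ k : ℕ, ∀ c ≥ k, (Set.range (G c)).encard ≤ k := by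
    by_contra hcon
    push Not at hcon
    obtain ⟨S, hS1, hS2⟩ := selector G hcon
    have h1 : {m : ℕ | Nat.unpair m ∈ S} ∈ EDc ∩ EDr := by
      apply hsel
      intro p hp q hq heq
      have := hS1 _ hp _ hq (by simpa [G] using heq)
      have h3 := congrArg (fun x : ℕ × ℕ => Nat.pair x.1 x.2) this
      simpa using h3
    obtain ⟨k, hk⟩ := h1.1
    obtain ⟨c, hc, hlt⟩ := hS2 k
    have h2 := hk c hc
    simp only [Set.mem_setOf_eq, Nat.unpair_pair] at h2
    exact absurd hlt (not_lt.2 h2)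
  have hB : ∃ k : ℕ, ∀ r ≥ k, (Set.range (fun c => G c r)).encard ≤ k := by
    by_contra hcon
    push Not at hcon
    obtain ⟨S, hS1, hS2⟩ := selector (fun r c => G c r) hcon
    have h1 : {m : ℕ | (Nat.unpair m).swap ∈ S} ∈ EDc ∩ EDr := by
      apply hsel
      intro p hp q hq heq
      have := hS1 _ hp _ hq (by simpa [G] using heq)
      have h3 := congrArg (fun x : ℕ × ℕ => Nat.pair x.2 x.1) this
      simpa using h3
    obtain ⟨k, hk⟩ := h1.2
    obtain ⟨c, hc, hlt⟩ := hS2 k
    have h2 := hk c hc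
    simp only [Set.mem_setOf_eq, Nat.unpair_pair, Prod.swap_prod_mk] at h2
    exact absurd hlt (not_lt.2 h2)
  obtain ⟨k, hk⟩ := hA
  obtain ⟨l, hl⟩ := hB
  have main : ∀ L : ℕ, ∃ (N : Finset ℕ) (D : Finset ℕ) (R : ℕ), D.card = L ∧
      ∀ r ≥ R, (∀ c ∈ D, G c r ∈ N) ∧ (∀ c ∈ D, ∀ c' ∈ D, G c r = G c' r → c = c') := by
    intro L
    induction L with
    | zero => exact ⟨∅, ∅, 0, rfl, fun r _ => ⟨by simp, by simp⟩⟩
    | succ L ih =>
      obtain ⟨N, D, R, hD, hR⟩ := ih
      -- a bound for the fibres over N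
      choose kf hkf using hfib
      let c : ℕ := max k (max (N.sup kf) (D.sup id + 1))
      have hck : k ≤ c := le_max_left _ _
      have hcN : ∀ n ∈ N, kf n ≤ c := fun n hn =>
        (Finset.le_sup (f := kf) hn).trans ((le_max_left _ _).trans (le_max_right _ _))
      have hcD : c ∉ D := by
        intro hcD
        have h1 : c ≤ D.sup id := Finset.le_sup (f := id) hcD
        have h2 : D.sup id + 1 ≤ c := (le_max_right _ _).trans (le_max_right _ _)
        omega
      have hrf : (Set.range (G c)).Finite := by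
        rw [← Set.encard_ne_top_iff]
        exact ne_top_of_le_ne_top (ENat.coe_ne_top k) (hk c hck)
      have hbad : {r | G c r ∈ N}.Finite := by
        have : {r | G c r ∈ N} = ⋃ n ∈ N, {r | G c r = n} := by
          ext r; simp
        rw [this]
        refine Set.Finite.biUnion N.finite_toSet fun n hn => ?_
        rw [← Set.encard_ne_top_iff]
        exact ne_top_of_le_ne_top (ENat.coe_ne_top _) (hkf n c (hcN n hn))
      obtain ⟨B, hB⟩ := hbad.bddAbove
      refine ⟨N ∪ hrf.toFinset, insert c D, max R (B + 1), ?_, ?_⟩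
      · rw [Finset.card_insert_of_notMem hcD, hD]
      · intro r hr
        have hrR : R ≤ r := (le_max_left _ _).trans hr
        have hrB : B + 1 ≤ r := (le_max_right _ _).trans hr
        have hnot : G c r ∉ N := by
          intro hmem
          have : r ≤ B := hB (show r ∈ {r | G c r ∈ N} from hmem)
          omega
        obtain ⟨h1, h2⟩ := hR r hrR
        refine ⟨?_, ?_⟩
        · intro c' hc'
          rcases Finset.mem_insert.1 hc' with rfl | hc'
          · exact Finset.mem_union_right _ (by simp)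
          · exact Finset.mem_union_left _ (h1 _ hc')
        · intro a ha b hb heq
          rcases Finset.mem_insert.1 ha with rfl | ha
          · rcases Finset.mem_insert.1 hb with rfl | hb
            · rfl
            · exact absurd (heq ▸ h1 _ hb) hnot
          · rcases Finset.mem_insert.1 hb with rfl | hb
            · exact absurd (heq ▸ h1 _ ha) hnot
            · exact h2 _ ha _ hb heq
  obtain ⟨N, D, R, hD, hR⟩ := main (l + 1)
  obtain ⟨-, hinj⟩ := hR (max R l) (le_max_left _ _)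
  have h1 := hl (max R l) (le_max_right _ _)
  have h2 : ((l + 1 : ℕ) : ℕ∞) ≤ (Set.range (fun c => G c (max R l))).encard := by
    rw [← hD, ← Set.encard_coe_eq_coe_finsetCard]
    refine Set.encard_le_encard_of_injOn (f := fun c => G c (max R l)) ?_ ?_
    · intro c _
      exact ⟨c, rfl⟩
    · intro a ha b hb heq
      exact hinj a (by simpa using ha) b (by simpa using hb) heq
  have h3 : ((l + 1 : ℕ) : ℕ∞) ≤ (l : ℕ∞) := h2.trans h1
  have h4 : l + 1 ≤ l := by exact_mod_cast h3
  omega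

/-- **Statement (ii) of MP_8697f8_lc is false in ZFC.** -/
theorem result : ∃ I J₀ J₁ : Set (Set ℕ), IsIdeal I ∧ IsIdeal J₀ ∧ IsIdeal J₁ ∧
    pK I (J₀ ∩ J₁) ≤ ((Cardinal.continuum : Cardinal.{0}) : WithTop Cardinal.{0}) ∧
    ∀ e : Bool × ℕ ≃ ℕ, pK I (osum e J₀ J₁) = ⊤ ∧ pK I (J₀ ∩ J₁) ≠ pK I (osum e J₀ J₁) := by
  have hle : pK EDc (EDc ∩ EDr) ≤ ((Cardinal.continuum : Cardinal.{0}) : WithTop Cardinal.{0}) := by
    have h1 : pK EDc (EDc ∩ EDr) ≤ ((Cardinal.mk EDc : Cardinal.{0}) : WithTop Cardinal.{0}) :=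
      sInf_le ⟨EDc, subset_rfl, not_katetov, rfl⟩
    refine h1.trans (WithTop.coe_le_coe.2 ?_)
    refine (Cardinal.mk_set_le EDc).trans ?_
    rw [Cardinal.mk_set, Cardinal.mk_nat]
    exact le_of_eq rfl
  refine ⟨EDc, EDc, EDr, EDc_ideal, EDc_ideal, EDr_ideal, hle, fun e => ?_⟩
  have htop : pK EDc (osum e EDc EDr) = ⊤ := by
    have : {κ : WithTop Cardinal.{0} | ∃ A : Set (Set ℕ), A ⊆ EDc ∧
        ¬ KatetovLE A (osum e EDc EDr) ∧
        κ = ((Cardinal.mk A : Cardinal.{0}) : WithTop Cardinal.{0})} = ∅ := by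
      ext κ
      simp only [Set.mem_setOf_eq, Set.mem_empty_iff_false, iff_false]
      rintro ⟨A, hA, hn, -⟩
      apply hn
      refine ⟨fun n => if (e.symm n).1 = false then (e.symm n).2 else sw (e.symm n).2, ?_⟩
      intro a ha
      refine ⟨?_, ?_⟩
      · have : {n | e (false, n) ∈ (fun n => if (e.symm n).1 = false then (e.symm n).2
            else sw (e.symm n).2) ⁻¹' a} = a := by
          ext n; simp
        rw [this]
        exact hA ha
      · have : {n | e (true, n) ∈ (fun n => if (e.symm n).1 = false then (e.symm n).2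
            else sw (e.symm n).2) ⁻¹' a} = sw ⁻¹' a := by
          ext n; simp
        rw [this]
        exact (mem_EDc_iff a).1 (hA ha)
    unfold pK
    rw [this]
    exact WithTop.sInf_empty
  refine ⟨htop, ?_⟩
  rw [htop]
  exact ne_top_of_le_ne_top (WithTop.coe_ne_top) hle

end Pool.Agent.Results.MP_8697f8_lc.KatetovNumbersDiffer
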