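import Pool.Agent.X43.KT.C

/-!
# MP_8697f8_lc, Q1 (i), (iii), (iv)

* Under CH the statements (i), (iii) and (iv) are true for all ideals: all the cardinals involved
  are equal to the continuum.
* If there is a tower `T` along a linear order `K` with `2 ^ #K = 𝔠` (that is, if `2 ^ 𝔱 = 𝔠`; this
  holds in the Cohen model, where `𝔱 = ℵ₁` and `2 ^ ℵ₁ = 𝔠 = ℵ₂`), then (iv) is false: there are
  ideals with `p_K(star, J0 ∩ J1) ≤ #K < p_K(star, J0 ⊕ J1)`.

Proof of the second part.  An independent family of `𝔠` many functions gives an ideal `J` such that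
each of the `𝔠` many families of size `≤ #K` which generate an ideal is Katetov below `J`.  Let `J0`
and `J1` be the ideals on `ω × ω` generated by the preimages of members of `J` under the two
projections; then `J` is Katetov below both.  Suppose `f : ω × ω → ω` witnesses that the family of
all singletons and all complements of members of the tower is Katetov below `J0 ∩ J1`.  Every row
image `R_n = f[{n} × ω]` is infinite, as otherwise `f⁻¹[R_n] ∈ J1`, although this set meets every
column.  For every `ξ` some row image is contained in `T_ξ`.  As a tower has uncountable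
cofinality, one single `R_n` is contained in `T_ξ` for cofinally many `ξ`, so it is a
pseudo-intersection of the tower, a contradiction.
-/

namespace Pool.Agent.Results.MP_8697f8_lc.StarKatetovIndependent

open Cardinal Set Pool.Agent.X43.KT

/-- `T` is a tower along the linear order `K`: a family of infinite subsets of `ω`, decreasing
modulo finite sets, with no infinite pseudo-intersection. -/
structure IsTower {K : Type} [LinearOrder K] (T : K → Set ℕ) : Prop where
  inf : ∀ ξ, (T ξ).Infinite
  dec : ∀ ξ η, ξ ≤ η → (T η \ T ξ).Finite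
  noPseudo : ∀ R : Set ℕ, R.Infinite → ∃ ξ, (R \ T ξ).Infinite

theorem result :
    ((ℵ₁ : Cardinal.{0}) = 𝔠 →
      ∀ J0 J1 : Set (Set ℕ), IsIdl J0 → IsIdl J1 →
        (∀ I : Set (Set ℕ), IsIdl I → sle I (J0 ∩ J1) = sle I (dsum J0 J1)) ∧
        sleStar (J0 ∩ J1) = sleStar (dsum J0 J1) ∧
        pKStar (J0 ∩ J1) = pKStar (dsum J0 J1)) ∧
    (∀ (K : Type) [LinearOrder K] (T : K → Set ℕ), IsTower T → (2 : Cardinal.{0}) ^ #K = 𝔠 →
      ∃ J0 J1 : Set (Set ℕ), IsIdl J0 ∧ IsIdl J1 ∧
        pKStar (J0 ∩ J1) ≤ ((#K : Cardinal.{0}) : WithTop Cardinal.{0}) ∧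
        ((#K : Cardinal.{0}) : WithTop Cardinal.{0}) < pKStar (dsum J0 J1)) := by
  refine ⟨fun hCH J0 J1 h0 h1 => ?_, ?_⟩
  · have hi := inter_idl h0 h1
    have hd := dsum_idl h0 h1
    refine ⟨fun I hI => ?_, ?_, ?_⟩
    · rw [sle_CH hCH hI hi, sle_CH hCH hI hd]
    · rw [sleStar_CH hCH hi, sleStar_CH hCH hd]
    · rw [pk_CH hCH hi, pk_CH hCH hd]
  · intro K _ T hT hpow
    obtain ⟨ξ, _⟩ := hT.noPseudo Set.univ Set.infinite_univ
    haveI : Nonempty K := ⟨ξ⟩
    exact main K (tower_cof T hT.inf hT.dec hT.noPseudo) T hT.inf hT.dec hT.noPseudo hpow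

end Pool.Agent.Results.MP_8697f8_lc.StarKatetovIndependent
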