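import Mathlib
import Pool.Agent.X247.SL.IvT

set_option autoImplicit false

open Set Cardinal
open Pool.Agent.X247.SL (IsIdeal KatetovLE osum Generates pKs IsTower iv_fails iv_fails_tower)

namespace Pool.Agent.Results.MP_8697f8_lc.StarKatetovNumbersDiffer

/-- **Statement (iv) of MP_8697f8_lc fails whenever `2 ^ κ = 𝔠` for some cardinal `κ` with
`non(M) ≤ κ` or `𝔱 ≤ κ`** (this holds, with `κ = ℵ₁`, in the Cohen model): there are ideals `J₀`,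
`J₁` on `ω` with `𝔭_K(⋆, J₀ ∩ J₁) ≤ κ < 𝔭_K(⋆, J₀ ⊕ J₁)`. -/
theorem result : ∀ κ : Cardinal.{0}, (2 : Cardinal.{0}) ^ κ = Cardinal.continuum →
    ((∃ N : Set (ℕ → ℕ), ¬ IsMeagre N ∧ Cardinal.mk N ≤ κ) ∨
      (∃ T : Set (Set ℕ), IsTower T ∧ Cardinal.mk T ≤ κ)) →
    ∃ J₀ J₁ : Set (Set ℕ), IsIdeal J₀ ∧ IsIdeal J₁ ∧
      pKs (J₀ ∩ J₁) ≤ (κ : WithTop Cardinal.{0}) ∧
      ∀ e : Bool × ℕ ≃ ℕ, (κ : WithTop Cardinal.{0}) < pKs (osum e J₀ J₁) := by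
  rintro κ h2 (⟨N, hN, hκ⟩ | ⟨T, hT, hκ⟩)
  · exact iv_fails κ h2 N hN hκ
  · exact iv_fails_tower κ h2 T hT hκ

end Pool.Agent.Results.MP_8697f8_lc.StarKatetovNumbersDiffer
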