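import Mathlib
import Pool.Agent.X247.SL.Tower

set_option autoImplicit false

open Set Cardinal
open Pool.Agent.X247.SL (IsIdeal KatetovLE osum Generates pKs IsTower main)

namespace Pool.Agent.Results.MP_8697f8_lc.StarTowerBound

/-- **For every ideal `J` there are ideals `J₀`, `J₁` with `𝔭_K(⋆, J₀ ⊕ J₁) = 𝔭_K(⋆, J)` and
`𝔭_K(⋆, J₀ ∩ J₁) ≤ |T|` for every tower `T`** (so `𝔭_K(⋆, J₀ ∩ J₁) ≤ 𝔱`). -/
theorem result : ∀ J : Set (Set ℕ), IsIdeal J →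
    ∃ J₀ J₁ : Set (Set ℕ), IsIdeal J₀ ∧ IsIdeal J₁ ∧
      (∀ e : Bool × ℕ ≃ ℕ, pKs (osum e J₀ J₁) = pKs J) ∧
      ∀ T : Set (Set ℕ), IsTower T →
        pKs (J₀ ∩ J₁) ≤ ((Cardinal.mk T : Cardinal.{0}) : WithTop Cardinal.{0}) :=
  fun J hJ => main J hJ

end Pool.Agent.Results.MP_8697f8_lc.StarTowerBound
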